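import Mathlib
import Pool.Agent.Helper14.BM.Final

/-!
# Brownian motion minus a continuous function: the maximal open set of good heights is hit at
almost every time

For every standard Brownian motion `B` and every `f` continuous on `[0,1]`, let `U` be the union
of all open sets `V` such that `{s ∈ [0,1] : B s - f s = y}` has Hausdorff dimension at least `1/2`
for all `y ∈ V`. Almost surely the set of times `t ∈ [0,1]` with `B t - f t ∈ U` has Lebesgue
measure `1`.
-/

open MeasureTheory ProbabilityTheory Set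
open scoped NNReal ENNReal

theorem Pool.Agent.Results.MP_088492_pr.MaximalOpenSet.result
    {Ω : Type*} [MeasurableSpace Ω] {P : Measure Ω} {B : ℝ≥0 → Ω → ℝ}
    (hB : IsBrownianReal B P) {f : ℝ → ℝ} (hf : ContinuousOn f (Icc 0 1)) :
    ∀ᵐ ω ∂P, volume {t : ℝ | t ∈ Icc (0 : ℝ) 1 ∧ B t.toNNReal ω - f t ∈
      ⋃₀ {V : Set ℝ | IsOpen V ∧ ∀ y ∈ V,
        (1 / 2 : ℝ≥0∞) ≤ dimH {s : ℝ | s ∈ Icc (0 : ℝ) 1 ∧ B s.toNNReal ω - f s = y}}} = 1 :=
  Pool.Agent.Helper14.BM.maximal_open_full hB hf
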