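import Mathlib
import Pool.Agent.Helper14.BM.Final

/-!
# Brownian motion minus a continuous function: a random open set of heights of dimension `1/2`

For every standard Brownian motion `B` and every `f` continuous on `[0,1]` there is a random
non-empty open set `U` such that almost surely all heights `y` in `U` have level set
`{t ∈ [0,1] : B t - f t = y}` of Hausdorff dimension at least `1/2`.
-/

open MeasureTheory ProbabilityTheory Set
open scoped NNReal ENNReal

theorem Pool.Agent.Results.MP_088492_pr.RandomOpenSet.result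
    {Ω : Type*} [MeasurableSpace Ω] {P : Measure Ω} {B : ℝ≥0 → Ω → ℝ}
    (hB : IsBrownianReal B P) {f : ℝ → ℝ} (hf : ContinuousOn f (Icc 0 1)) :
    ∃ U : Ω → Set ℝ, (∀ ω, IsOpen (U ω)) ∧ (∀ ω, (U ω).Nonempty) ∧
      (∀ K : Set ℝ, IsCompact K → NullMeasurableSet {ω | K ⊆ U ω} P) ∧
      ∀ᵐ ω ∂P, ∀ y ∈ U ω,
        (1 / 2 : ℝ≥0∞) ≤ dimH {t : ℝ | t ∈ Icc (0 : ℝ) 1 ∧ B t.toNNReal ω - f t = y} :=
  Pool.Agent.Helper14.BM.exists_random_open hB hf
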